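import Pool.Agent.W376.CI.FinB

/-!
Project CI (helper646): the extremal functions.
-/

set_option autoImplicit false

namespace Pool.Agent.W376.CIF

open Filter Topology Pool.Agent.W646.CI

variable {K : ℕ} {f : ℂ → ℂ} {η : ℝ → ℝ}

theorem mj_ge {R ε₁ : ℝ} (j : ℕ) : 2 * (1 - ε₁) * R ^ 2 * ej K j - 1 ≤ mj K R ε₁ j := by
  have h := Nat.lt_floor_add_one (2 * (1 - ε₁) * R ^ 2 * ej K j)
  unfold mj
  linarith

theorem mj_ge' {R ε₁ : ℝ} (hc : 1 ≤ 2 * (1 - ε₁) * R ^ 2) (j : ℕ) :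
    Real.exp (tj K j ^ K) - 1 ≤ mj K R ε₁ j := by
  refine le_trans ?_ (mj_ge j)
  unfold ej
  have h1 := Real.exp_pos (tj K j ^ K)
  nlinarith

theorem aF_top (hK : 3 ≤ K) (hf : Differentiable ℂ f) (h0 : f 0 = 1) {R ε₁ : ℝ}
    (hc : 1 ≤ 2 * (1 - ε₁) * R ^ 2) {T0 : ℕ}
    (hw : ∀ j : ℕ, (T0 : ℝ) + 1 ≤ tj K j →
      (mj K R ε₁ j : ℝ) ≤ MinMod.aF f (4 * Real.exp (tj K j))) (Y : ℝ) :
    ∀ᶠ r : ℝ in atTop, Y < MinMod.aF f r := by
  obtain ⟨j, h1, h2, h3⟩ := (((tj_tendsto hK).eventually_gt_atTop Y).and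
    (((tj_tendsto hK).eventually_ge_atTop ((T0 : ℝ) + 1)).and
      ((tj_tendsto hK).eventually_ge_atTop 1))).exists
  filter_upwards [eventually_ge_atTop (4 * Real.exp (tj K j))] with r hr
  refine lt_of_lt_of_le ?_ (aF_mono hf h0 (by positivity) hr)
  refine lt_of_lt_of_le ?_ (hw j h2)
  refine lt_of_lt_of_le ?_ (mj_ge' hc j)
  have h4 := Real.add_one_le_exp (tj K j ^ K)
  have h5 : tj K j ^ 1 ≤ tj K j ^ K := pow_le_pow_right₀ h3 (by omega)
  rw [pow_one] at h5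
  linarith

theorem order_top (hK : 3 ≤ K) {R ε₁ : ℝ}
    (hc : 1 ≤ 2 * (1 - ε₁) * R ^ 2) {T0 : ℕ}
    (hw : ∀ j : ℕ, (T0 : ℝ) + 1 ≤ tj K j →
      (mj K R ε₁ j : ℝ) ≤ MinMod.aF f (4 * Real.exp (tj K j))) : order f = ⊤ := by
  rw [EReal.eq_top_iff_forall_lt]
  intro Y
  have h1 : ∀ᶠ j : ℕ in atTop, ((Y + 1 : ℝ) : EReal) ≤
      ((Real.log (MinMod.aF f (4 * Real.exp (tj K j))) /
        Real.log (4 * Real.exp (tj K j)) : ℝ) : EReal) := by
    filter_upwards [(tj_tendsto hK).eventually_ge_atTop ((T0 : ℝ) + 1),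
      (tj_tendsto hK).eventually_ge_atTop (2 * |Y + 1| + 2)] with j h2 h3
    rw [EReal.coe_le_coe_iff]
    have hY := abs_nonneg (Y + 1)
    set t := tj K j with ht
    have ht2 : 2 ≤ t := by linarith
    have h4 : Real.log (4 * Real.exp t) = Real.log 4 + t := by
      rw [Real.log_mul (by norm_num) (Real.exp_pos t).ne', Real.log_exp]
    have h5 : 0 ≤ Real.log 4 := Real.log_nonneg (by norm_num)
    have h6 : Real.log 4 ≤ 2 := by
      rw [Real.log_le_iff_le_exp (by norm_num)]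
      have h7 : Real.exp 2 = Real.exp 1 * Real.exp 1 := by
        rw [← Real.exp_add]
        norm_num
      have h8 := Real.add_one_le_exp (1 : ℝ)
      nlinarith
    have htK : t ^ 2 ≤ t ^ K := pow_le_pow_right₀ (by linarith) (by omega)
    have h9 : t ^ K - 1 ≤ Real.log (MinMod.aF f (4 * Real.exp t)) := by
      have h10 : Real.exp (t ^ K - 1) ≤ MinMod.aF f (4 * Real.exp t) := by
        refine le_trans ?_ (hw j h2)
        refine le_trans ?_ (mj_ge' hc j)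
        rw [← ht]
        have h11 : Real.exp (t ^ K) = Real.exp (t ^ K - 1) * Real.exp 1 := by
          rw [← Real.exp_add]
          congr 1
          ring
        have h12 := Real.add_one_le_exp (1 : ℝ)
        have h13 : 1 ≤ Real.exp (t ^ K - 1) := Real.one_le_exp (by nlinarith)
        nlinarith
      rw [Real.le_log_iff_exp_le (lt_of_lt_of_le (Real.exp_pos _) h10)]
      exact h10
    rw [le_div_iff₀ (by rw [h4]; linarith)]
    refine le_trans ?_ h9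
    rw [h4]
    have h14 : (Y + 1) * (Real.log 4 + t) ≤ |Y + 1| * (2 * t) :=
      mul_le_mul (le_abs_self _) (by linarith) (by linarith) hY
    nlinarith
  have h2 : Tendsto (fun j : ℕ => 4 * Real.exp (tj K j)) atTop atTop :=
    (Real.tendsto_exp_atTop.comp (tj_tendsto hK)).const_mul_atTop (by norm_num)
  have h3 : ∃ᶠ r : ℝ in atTop, ((Y + 1 : ℝ) : EReal) ≤
      ((Real.log (MinMod.aF f r) / Real.log r : ℝ) : EReal) :=
    h2.frequently h1.frequently
  have h4 : ((Y + 1 : ℝ) : EReal) ≤ order f := le_limsup_of_frequently_le h3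
  refine lt_of_lt_of_le ?_ h4
  rw [EReal.coe_lt_coe_iff]
  linarith

/-- the final inequality -/
theorem numeric {K : ℕ} {ε c C₀ C₁ τ e E m a η : ℝ} (hε : 0 < ε) (hε1 : ε < 1)
    (hK : 3 ≤ K) (hcK : (2 - ε / 2) * K ≤ c * ((K : ℝ) - 2)) (hc : 1 ≤ c) (hc2 : c ≤ 2)
    (hC₀ : 0 ≤ C₀) (hC₁ : 1 ≤ C₁) (hτ : (K : ℝ) ≤ τ)
    (hE : E = Real.exp (τ ^ K)) (he : E ≤ e) (hm : c * e - 1 ≤ m)
    (hη : 0 ≤ η) (hη1 : η ≤ ε / 8) (ha : Real.exp 1 < a) (haE : a ≤ (1 + η) * E)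
    (hlog : 2 * Real.log C₁ + C₀ + 3 ≤ ε / 4 * (K * Real.log τ)) :
    -(m * (((K : ℝ) - 2) * Real.log τ - Real.log C₁)) + C₀ * e ≤
      -((2 - ε) * (a * Real.log (Real.log a))) := by
  have hK' : (3 : ℝ) ≤ K := by exact_mod_cast hK
  have hτ0 : 0 < τ := by linarith
  have hl0 : 0 ≤ Real.log τ := Real.log_nonneg (by linarith)
  have hl1 : Real.log τ ≤ τ := (Real.log_le_sub_one_of_pos hτ0).trans (by linarith)
  have hC₁l : 0 ≤ Real.log C₁ := Real.log_nonneg hC₁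
  set ℓ := Real.log τ with hℓ
  set A := ((K : ℝ) - 2) * ℓ - Real.log C₁ with hA
  have hKl : 0 ≤ (K : ℝ) * ℓ := by positivity
  -- lower bound for c A
  have hcA : (2 - ε / 2) * (K * ℓ) - 2 * Real.log C₁ ≤ c * A := by
    have h1 := mul_le_mul_of_nonneg_right hcK hl0
    have h2 := mul_le_mul_of_nonneg_right hc2 hC₁l
    have h3 : c * A = c * ((K : ℝ) - 2) * ℓ - c * Real.log C₁ := by
      rw [hA]
      ring
    have h4 : (2 - ε / 2) * (K * ℓ) = (2 - ε / 2) * K * ℓ := by ring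
    rw [h3, h4]
    linarith
  have hE1 : 1 ≤ E := by
    rw [hE]
    exact Real.one_le_exp (by positivity)
  have hAE : A ≤ E := by
    have h1 : A ≤ K * τ := by
      have h2 : ((K : ℝ) - 2) * ℓ ≤ K * ℓ := mul_le_mul_of_nonneg_right (by linarith) hl0
      have h3 : (K : ℝ) * ℓ ≤ K * τ := mul_le_mul_of_nonneg_left hl1 (by linarith)
      rw [hA]
      linarith
    have h2 : (K : ℝ) * τ ≤ τ ^ 2 := by
      rw [sq]
      exact mul_le_mul_of_nonneg_right hτ hτ0.le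
    have h3 : τ ^ 2 ≤ τ ^ K := pow_le_pow_right₀ (by linarith) (by omega)
    have h4 := Real.add_one_le_exp (τ ^ K)
    rw [hE]
    linarith
  have hcA3 : 3 ≤ c * A - C₀ := by
    have h1 : ε / 4 * (K * ℓ) ≤ (2 - ε / 2) * (K * ℓ) :=
      mul_le_mul_of_nonneg_right (by linarith) hKl
    linarith
  have hcA0 : 0 ≤ c * A - C₀ := by linarith
  have hA0 : 0 ≤ A := by
    by_contra h
    push Not at h
    have h1 := mul_neg_of_pos_of_neg (by linarith : 0 < c) h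
    linarith
  -- upper bound for a log log a
  have hlog1 : Real.log (Real.log a) ≤ K * ℓ + 1 := by
    have ha0 : 0 < a := lt_trans (Real.exp_pos 1) ha
    have h1 : Real.log a ≤ 1 + τ ^ K := by
      have h2 : Real.log a ≤ Real.log ((1 + η) * E) := Real.log_le_log ha0 haE
      rw [Real.log_mul (by linarith) (by linarith), hE, Real.log_exp] at h2
      have h3 : Real.log (1 + η) ≤ η := by
        have := Real.log_le_sub_one_of_pos (by linarith : (0 : ℝ) < 1 + η)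
        linarith
      linarith
    have h4 : 0 < Real.log a := by
      have : 1 < Real.log a := by
        rw [Real.lt_log_iff_exp_lt ha0]
        exact ha
      linarith
    have h5 : Real.log a ≤ Real.exp 1 * τ ^ K := by
      have h6 : 1 ≤ τ ^ K := one_le_pow₀ (by linarith)
      have h7 := Real.add_one_le_exp (1 : ℝ)
      have h8 : 2 * τ ^ K ≤ Real.exp 1 * τ ^ K :=
        mul_le_mul_of_nonneg_right (by linarith) (by linarith)
      linarith
    have h8 := Real.log_le_log h4 h5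
    rw [Real.log_mul (Real.exp_pos 1).ne' (by positivity), Real.log_exp, Real.log_pow] at h8
    linarith
  have hlog0 : 0 ≤ Real.log (Real.log a) := by
    refine Real.log_nonneg ?_
    have ha0 : 0 < a := lt_trans (Real.exp_pos 1) ha
    rw [Real.le_log_iff_exp_le ha0]
    exact ha.le
  have h1 : (2 - ε) * (a * Real.log (Real.log a)) ≤
      (2 - 3 * ε / 4) * (E * (K * ℓ + 1)) := by
    have h2 : a * Real.log (Real.log a) ≤ ((1 + η) * E) * (K * ℓ + 1) :=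
      mul_le_mul haE hlog1 hlog0 (by positivity)
    have h3 : (2 - ε) * (1 + η) ≤ 2 - 3 * ε / 4 := by
      have h4 : (2 - ε) * (1 + η) ≤ (2 - ε) * (1 + ε / 8) :=
        mul_le_mul_of_nonneg_left (by linarith) (by linarith)
      have h5 : (2 - ε) * (1 + ε / 8) = 2 - 3 * ε / 4 - ε ^ 2 / 8 := by ring
      have h6 := sq_nonneg ε
      linarith
    calc (2 - ε) * (a * Real.log (Real.log a))
        ≤ (2 - ε) * (((1 + η) * E) * (K * ℓ + 1)) :=
          mul_le_mul_of_nonneg_left h2 (by linarith)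
      _ = ((2 - ε) * (1 + η)) * (E * (K * ℓ + 1)) := by ring
      _ ≤ (2 - 3 * ε / 4) * (E * (K * ℓ + 1)) :=
          mul_le_mul_of_nonneg_right h3 (by positivity)
  have h4 : m * A ≥ (c * e - 1) * A := mul_le_mul_of_nonneg_right hm hA0
  have h5 : (c * A - C₀) * E ≤ (c * A - C₀) * e := mul_le_mul_of_nonneg_left he hcA0
  have h6 : (2 - 3 * ε / 4) * (K * ℓ + 1) ≤ c * A - C₀ - 1 := by
    have h8 : (2 - 3 * ε / 4) * (K * ℓ + 1) =
        (2 - ε / 2) * (K * ℓ) - ε / 4 * (K * ℓ) + (2 - 3 * ε / 4) := by ring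
    rw [h8]
    linarith
  have h7 : (2 - 3 * ε / 4) * (K * ℓ + 1) * E ≤ (c * A - C₀ - 1) * E :=
    mul_le_mul_of_nonneg_right h6 (by linarith)
  have h9 : (c * e - 1) * A - C₀ * e = (c * A - C₀) * e - A := by ring
  have h10 : (c * A - C₀ - 1) * E = (c * A - C₀) * E - E := by ring
  have h11 : (2 - 3 * ε / 4) * (E * (K * ℓ + 1)) = (2 - 3 * ε / 4) * (K * ℓ + 1) * E := by ring
  linarith

theorem fin_u (h : S_LIM) : S_FINU := by
  intro ε hε hε1
  obtain ⟨K, hKr⟩ : ∃ K : ℕ, 32 / ε ≤ K := exists_nat_ge _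
  have hKe : 32 ≤ ε * K := by
    rw [div_le_iff₀ hε] at hKr
    linarith
  have hK32 : (32 : ℝ) ≤ K := by
    have h1 : ε * (K : ℝ) ≤ 1 * K := mul_le_mul_of_nonneg_right hε1.le (Nat.cast_nonneg K)
    linarith
  have hK : 3 ≤ K := by
    have : (3 : ℝ) ≤ K := by linarith
    exact_mod_cast this
  obtain ⟨T0, η, hη0, hηn, ⟨M, hM⟩, f, hf, h0, hb, hw⟩ :=
    h K (1 - ε / 16) (ε / 16) hK (by linarith) (by linarith) (by linarith) (by linarith)
  set R : ℝ := 1 - ε / 16 with hR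
  set ε₁ : ℝ := ε / 16 with hε₁
  have hcl : 2 - 3 * ε / 8 ≤ 2 * (1 - ε₁) * R ^ 2 := by
    rw [hR, hε₁]
    have h1 : 2 * (1 - ε / 16) * (1 - ε / 16) ^ 2 =
        2 - 3 * ε / 8 + 2 * (ε / 16) ^ 2 * (3 - ε / 16) := by ring
    rw [h1]
    have h2 : 0 ≤ 2 * (ε / 16) ^ 2 * (3 - ε / 16) :=
      mul_nonneg (by positivity) (by linarith)
    linarith
  have hc1 : 1 ≤ 2 * (1 - ε₁) * R ^ 2 := by linarith
  have hc2 : 2 * (1 - ε₁) * R ^ 2 ≤ 2 := by
    have h1 : R ^ 2 ≤ 1 := pow_le_one₀ (by linarith) (by linarith)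
    have h2 : 2 * (1 - ε₁) * R ^ 2 ≤ 2 * 1 :=
      mul_le_mul (by linarith) h1 (by positivity) (by norm_num)
    linarith
  have hcK : (2 - ε / 2) * K ≤ 2 * (1 - ε₁) * R ^ 2 * ((K : ℝ) - 2) := by
    have h1 := mul_le_mul_of_nonneg_right hcl (by linarith : (0 : ℝ) ≤ (K : ℝ) - 2)
    have h2 : (2 - 3 * ε / 8) * ((K : ℝ) - 2) =
        (2 - ε / 2) * K + (ε * K / 8 - 4) + 3 * ε / 4 := by ring
    rw [h2] at h1
    linarith
  have hwj : ∀ j : ℕ, (T0 : ℝ) + 1 ≤ tj K j →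
      (mj K R ε₁ j : ℝ) ≤ MinMod.aF f (4 * Real.exp (tj K j)) :=
    fun j hj => aF_ge hf h0 (hw j hj)
  refine ⟨f, hf, order_top hK hc1 hwj, ?_⟩
  have hM0 : 0 ≤ M := (hηn 0).trans (hM 0)
  have hlogt : Tendsto (fun τ : ℝ => ε / 4 * (K * Real.log τ)) atTop atTop :=
    (Real.tendsto_log_atTop.const_mul_atTop (by linarith)).const_mul_atTop (by linarith)
  have hmain : ∀ᶠ τ : ℝ in atTop, Real.exp 1 < MinMod.aF f (Real.exp τ) ∧
      ∃ z : ℂ, ‖z‖ = Real.exp τ ∧ ‖f z‖ ≤ Real.exp (-((2 - ε) *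
        (MinMod.aF f (Real.exp τ) * Real.log (Real.log (MinMod.aF f (Real.exp τ)))))) := by
    filter_upwards [eventually_ge_atTop (4 : ℝ), eventually_ge_atTop ((K : ℝ) * 2 ^ (K - 1)),
      eventually_ge_atTop ((T0 : ℝ) + 1), eventually_ge_atTop (K : ℝ),
      Real.tendsto_exp_atTop.eventually (aF_top hK hf h0 hc1 hwj (Real.exp 1)),
      hη0.eventually_le_const (by linarith : (0 : ℝ) < ε / 8),
      hlogt.eventually_ge_atTop (2 * Real.log (K * 2 ^ (K - 1)) + (1 + M) * Real.exp 2 + 3)]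
      with τ h1 h2 h3 h4 h5 h6 h7
    have h8 := tj_ceil hK (by linarith : (1 : ℝ) ≤ τ) (rfl : ⌈τ ^ (2 * K - 2)⌉₊ = _)
    obtain ⟨z, hz, hfz⟩ := main_est hK hηn hM hb h1 h2 rfl
      (hw ⌈τ ^ (2 * K - 2)⌉₊ (h3.trans h8.1))
    refine ⟨h5, z, hz, hfz.trans (Real.exp_le_exp.2 ?_)⟩
    refine numeric hε hε1 hK hcK hc1 hc2 (by positivity) ?_ h4 rfl ?_ (mj_ge _) (hηn τ) h6 h5
      (aF_le hf h0 hb (by linarith)) h7
    · have h9 : (1 : ℝ) ≤ 2 ^ (K - 1) := one_le_pow₀ (by norm_num)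
      have h10 : (1 : ℝ) * 1 ≤ K * 2 ^ (K - 1) :=
        mul_le_mul (by linarith) h9 (by norm_num) (by linarith)
      linarith
    · unfold ej
      exact Real.exp_le_exp.2 (pow_le_pow_left₀ (by linarith) h8.1 K)
  filter_upwards [Real.tendsto_log_atTop.eventually hmain, eventually_gt_atTop (0 : ℝ)]
    with r hr hr0
  rwa [Real.exp_log hr0] at hr

end Pool.Agent.W376.CIF
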