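import Pool.Agent.W809.CI.Stm2

/-!
Project CI (helper809): the universal system of colourings.
-/

set_option autoImplicit false

open Set Filter Topology

namespace Pool.Agent.W376.CI

open Pool.Agent.W809.CI

/-- the condition on the colourings -/
def Pc (c : ℤ → ℂ × ℂ) : Prop := ∀ k, ‖c k‖ ≤ 1 ∧ 1 / 2 ≤ ‖c (k + 1) - c k‖

/-- the space of the colourings -/
abbrev Xc : Type := {c : ℤ → ℂ × ℂ // Pc c}

theorem compact_Xc : CompactSpace Xc := by
  have h1 : IsCompact {c : ℤ → ℂ × ℂ | Pc c} := by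
    have h2 : IsCompact (Set.univ.pi fun _ : ℤ => Metric.closedBall (0 : ℂ × ℂ) 1) :=
      isCompact_univ_pi fun _ => isCompact_closedBall _ _
    refine h2.of_isClosed_subset ?_ ?_
    · have h3 : {c : ℤ → ℂ × ℂ | Pc c} =
          ⋂ k : ℤ, ({c | ‖c k‖ ≤ 1} ∩ {c | 1 / 2 ≤ ‖c (k + 1) - c k‖}) := by
        ext c
        simp only [Set.mem_iInter]
        rfl
      rw [h3]
      refine isClosed_iInter fun k => IsClosed.inter ?_ ?_
      · exact isClosed_le (continuous_apply k).norm continuous_const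
      · exact isClosed_le continuous_const
          ((continuous_apply (k + 1)).sub (continuous_apply k)).norm
    · intro c hc k _
      rw [mem_closedBall_zero_iff]
      exact (hc k).1
  exact isCompact_iff_compactSpace.1 h1

theorem sc_Xc : SecondCountableTopology Xc :=
  TopologicalSpace.Subtype.secondCountableTopology {c : ℤ → ℂ × ℂ | Pc c}

theorem metr_Xc : TopologicalSpace.MetrizableSpace Xc :=
  have := sc_Xc
  TopologicalSpace.metrizableSpace_of_t3_secondCountable Xc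

/-- the shift -/
def Tc : Xc ≃ₜ Xc where
  toFun c := ⟨fun k => c.1 (k + 1), fun k => c.2 (k + 1)⟩
  invFun c := ⟨fun k => c.1 (k - 1), fun k => by
    have h := c.2 (k - 1)
    rw [sub_add_cancel] at h
    change ‖c.1 (k - 1)‖ ≤ 1 ∧ 1 / 2 ≤ ‖c.1 (k + 1 - 1) - c.1 (k - 1)‖
    rwa [add_sub_cancel_right]⟩
  left_inv c := by
    apply Subtype.ext
    funext k
    simp
  right_inv c := by
    apply Subtype.ext
    funext k
    simp
  continuous_toFun := by
    refine Continuous.subtype_mk (continuous_pi fun k => ?_) _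
    exact (continuous_apply (k + 1)).comp continuous_subtype_val
  continuous_invFun := by
    refine Continuous.subtype_mk (continuous_pi fun k => ?_) _
    exact (continuous_apply (k - 1)).comp continuous_subtype_val

theorem Tc_pow (p : ℕ) (c : Xc) (k : ℤ) : ((Tc ^ p) c).1 k = c.1 (k + p) := by
  induction p generalizing k with
  | zero => simp
  | succ p ih =>
    rw [pow_succ', Homeomorph.mul_apply]
    change ((Tc ^ p) c).1 (k + 1) = _
    have h1 : k + ((p + 1 : ℕ) : ℤ) = k + 1 + p := by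
      push_cast
      ring
    rw [ih, h1]

theorem Tc_ne (c : Xc) : Tc c ≠ c := by
  intro h
  have h1 := (c.2 0).2
  have h2 : c.1 (0 + 1) = c.1 0 := congrFun (congrArg Subtype.val h) 0
  rw [h2, sub_self, norm_zero] at h1
  norm_num at h1

theorem sys : S_CC → S_SYS := by
  rintro ⟨hc, hb, hn, -⟩
  refine ⟨Xc, inferInstance, Tc, compact_Xc, metr_Xc, Tc_ne, ?_⟩
  intro p n _ ⟨Φ, hT, hΦ, hsh, hd⟩
  have hu : ∀ k : ℤ, ‖((-1 : ℝ) ^ k)‖ = 1 := by
    intro k
    rw [norm_zpow, norm_neg, norm_one, one_zpow]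
  have h1 : ∀ w : EJoin p n, Pc fun k : ℤ => ((-1 : ℝ) ^ k) • Cc (Φ w k) := by
    intro w k
    constructor
    · rw [norm_smul, hu, one_mul]
      exact (hn _).2
    · have h2 : ((-1 : ℝ) ^ (k + 1)) • Cc (Φ w ((k + 1 : ℤ) : ℝ)) - ((-1 : ℝ) ^ k) • Cc (Φ w k) =
          (-(-1 : ℝ) ^ k) • ((2 : ℝ) • Cc (Φ w k) -
            (-(Cc (Φ w ((k : ℝ) + 1)) - Cc (Φ w k)))) := by
        rw [zpow_add_one₀ (by norm_num : (-1 : ℝ) ≠ 0)]
        push_cast
        module
      rw [h2, norm_smul, norm_neg, hu, one_mul]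
      refine le_trans ?_ (norm_sub_norm_le _ _)
      rw [norm_smul, norm_neg]
      have h3 := (hn (Φ w k)).1
      have h4 := hd w k
      rw [Real.norm_of_nonneg (by norm_num : (0 : ℝ) ≤ 2)]
      linarith
  refine ⟨fun w => ⟨⟨_, h1 w⟩, ?_⟩, ?_, ?_⟩
  · apply Subtype.ext
    funext k
    rw [Tc_pow]
    change ((-1 : ℝ) ^ (k + (p : ℤ))) • Cc (Φ w ((k + (p : ℤ) : ℤ) : ℝ)) =
      ((-1 : ℝ) ^ k) • Cc (Φ w k)
    push_cast
    rw [hT w k, hb, smul_smul, zpow_add₀ (by norm_num : (-1 : ℝ) ≠ 0), mul_assoc,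
      ← zpow_add₀ (by norm_num : (-1 : ℝ) ≠ 0), Even.neg_one_zpow ⟨(p : ℤ), rfl⟩, mul_one]
  · refine Continuous.subtype_mk (Continuous.subtype_mk (continuous_pi fun k => ?_) _) _
    exact (hc.comp (hΦ k)).const_smul ((-1 : ℝ) ^ k)
  · intro w
    apply Subtype.ext
    apply Subtype.ext
    funext k
    change ((-1 : ℝ) ^ k) • Cc (Φ w.shift k) =
      ((-1 : ℝ) ^ (k + 1)) • Cc (Φ w ((k + 1 : ℤ) : ℝ))
    rw [hsh]
    change ((-1 : ℝ) ^ k) • Cc (beta (-1) (Φ w ((k : ℝ) + ((1 : ℤ) : ℝ)))) = _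
    rw [hb, smul_smul]
    push_cast
    rw [zpow_add_one₀ (by norm_num : (-1 : ℝ) ≠ 0)]
    norm_num

end Pool.Agent.W376.CI
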