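import Pool.Agent.W646.CI.Stm
import Pool.Agent.MP06ac62.L4a

/-!
Project CI (helper646), extremal functions: elementary estimates.
-/

set_option autoImplicit false

namespace Pool.Agent.W376.CIF

open Filter Topology Pool.Agent.W646.CI

variable {K : ℕ}

theorem tj_nonneg (j : ℕ) : 0 ≤ tj K j := Real.rpow_nonneg (Nat.cast_nonneg j) _

theorem tj_pow (hK : 3 ≤ K) (j : ℕ) : tj K j ^ (2 * K - 2) = j := by
  unfold tj
  have h1 : ((2 * K - 2 : ℕ) : ℝ) = 2 * (K : ℝ) - 2 := by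
    rw [Nat.cast_sub (by omega)]
    push_cast
    ring
  have h2 : (2 * (K : ℝ) - 2) ≠ 0 := by
    have : (3 : ℝ) ≤ K := by exact_mod_cast hK
    linarith
  rw [← Real.rpow_natCast, ← Real.rpow_mul (Nat.cast_nonneg j), h1, one_div, inv_mul_cancel₀ h2,
    Real.rpow_one]

theorem tj_sqrt (hK : 3 ≤ K) (j : ℕ) : tj K j ^ (K - 1) = Real.sqrt j := by
  have h1 : (tj K j ^ (K - 1)) ^ 2 = j := by
    rw [← pow_mul, show (K - 1) * 2 = 2 * K - 2 by omega]
    exact tj_pow hK j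
  rw [← h1, Real.sqrt_sq (pow_nonneg (tj_nonneg j) _)]

theorem lj_eq (hK : 3 ≤ K) (j : ℕ) : lj K j = K * tj K j ^ (K - 1) := by
  rw [tj_sqrt hK]
  rfl

theorem tj_tendsto (hK : 3 ≤ K) : Tendsto (tj K) atTop atTop := by
  have h2 : 0 < (1 : ℝ) / (2 * K - 2) := by
    have : (3 : ℝ) ≤ K := by exact_mod_cast hK
    apply one_div_pos.2
    linarith
  exact (tendsto_rpow_atTop h2).comp tendsto_natCast_atTop_atTop

theorem tj_ceil (hK : 3 ≤ K) {τ : ℝ} (hτ : 1 ≤ τ) {j : ℕ} (hj : j = ⌈τ ^ (2 * K - 2)⌉₊) :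
    τ ≤ tj K j ∧ (tj K j - τ) * τ ^ (2 * K - 3) ≤ 1 ∧ tj K j ≤ 2 * τ := by
  have h0 : 0 ≤ τ := by linarith
  have h1 : τ ^ (2 * K - 2) ≤ j := by
    rw [hj]
    exact Nat.le_ceil _
  have h2 : (j : ℝ) ≤ τ ^ (2 * K - 2) + 1 := by
    rw [hj]
    exact (Nat.ceil_lt_add_one (pow_nonneg h0 _)).le
  rw [← tj_pow hK j] at h1 h2
  have h3 : τ ≤ tj K j := le_of_pow_le_pow_left₀ (by omega) (tj_nonneg j) h1
  have h4 : 2 * K - 2 = (2 * K - 3) + 1 := by omega
  have h5 : tj K j * τ ^ (2 * K - 3) ≤ tj K j ^ (2 * K - 2) := by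
    rw [h4, pow_succ, mul_comm]
    exact mul_le_mul_of_nonneg_right (pow_le_pow_left₀ h0 h3 _) (tj_nonneg j)
  have h6 : τ * τ ^ (2 * K - 3) = τ ^ (2 * K - 2) := by
    rw [h4, pow_succ, mul_comm]
  have h7 : (tj K j - τ) * τ ^ (2 * K - 3) ≤ 1 := by
    rw [sub_mul, h6]
    linarith
  refine ⟨h3, h7, ?_⟩
  have h8 : tj K j - τ ≤ 1 := by
    have h9 : (1 : ℝ) ≤ τ ^ (2 * K - 3) := one_le_pow₀ hτ
    have h10 : (tj K j - τ) * 1 ≤ (tj K j - τ) * τ ^ (2 * K - 3) :=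
      mul_le_mul_of_nonneg_left h9 (by linarith)
    linarith
  linarith

theorem pow_up (hK : 3 ≤ K) {t : ℝ} (ht : 1 ≤ t) :
    (t + 1 / (K * t ^ (K - 1))) ^ K ≤ t ^ K + 2 := by
  have hK0 : (0 : ℝ) < K := by
    have : (3 : ℝ) ≤ K := by exact_mod_cast hK
    linarith
  have ht0 : 0 < t := by linarith
  have h1 : t + 1 / (K * t ^ (K - 1)) = t * (1 / (K * t ^ K) + 1) := by
    have h2 : t ^ K = t ^ (K - 1) * t := by
      rw [← pow_succ]
      congr 1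
      omega
    rw [h2]
    field_simp
    ring
  have h3 : (1 / (K * t ^ K) + 1) ^ K ≤ Real.exp (1 / t ^ K) := by
    have h4 : (1 / (K * t ^ K) + 1 : ℝ) ≤ Real.exp (1 / (K * t ^ K)) := Real.add_one_le_exp _
    have h5 := pow_le_pow_left₀ (by positivity) h4 K
    rw [← Real.exp_nat_mul] at h5
    have h6 : (K : ℝ) * (1 / (K * t ^ K)) = 1 / t ^ K := by
      field_simp
    rwa [h6] at h5
  have h7 : 1 / t ^ K ≤ 1 := by
    rw [div_le_one (pow_pos ht0 _)]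
    exact one_le_pow₀ ht
  have h8 : Real.exp (1 / t ^ K) ≤ 1 + 2 * (1 / t ^ K) := by
    have h9 : 0 ≤ 1 / t ^ K := by positivity
    have h10 := Real.abs_exp_sub_one_le (x := 1 / t ^ K) (by rwa [abs_of_nonneg h9])
    rw [abs_of_nonneg h9] at h10
    have h11 := (abs_le.1 h10).2
    linarith
  rw [h1, mul_pow]
  calc t ^ K * (1 / (K * t ^ K) + 1) ^ K ≤ t ^ K * (1 + 2 * (1 / t ^ K)) :=
        mul_le_mul_of_nonneg_left (h3.trans h8) (by positivity)
    _ = t ^ K + 2 := by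
        field_simp

theorem norm_zeta (j : ℕ) : ‖Complex.exp (sj K j)‖ = Real.exp (tj K j) := Complex.norm_exp _

theorem norm_diff {τ : ℝ} {j : ℕ} (h : τ ≤ tj K j) :
    ‖Complex.exp ⟨τ, 8 * Real.sqrt j⟩ - Complex.exp (sj K j)‖ ≤
      Real.exp (tj K j) * (tj K j - τ) := by
  have h1 : ∀ a b : ℝ, Complex.exp (⟨a, b⟩ : ℂ) = (Real.exp a : ℂ) * Complex.exp (b * Complex.I) := by
    intro a b
    rw [Complex.ofReal_exp, ← Complex.exp_add]
    congr 1
    apply Complex.ext <;> simp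
  unfold sj
  rw [h1 τ, h1 (tj K j), ← sub_mul, norm_mul, Complex.norm_exp_ofReal_mul_I, mul_one, ← Complex.ofReal_sub,
    Complex.norm_real, Real.norm_eq_abs, abs_sub_comm, abs_of_nonneg (by
      have := Real.exp_le_exp.2 h
      linarith)]
  have h2 : Real.exp τ = Real.exp (tj K j) * Real.exp (-(tj K j - τ)) := by
    rw [← Real.exp_add]
    congr 1
    ring
  have h3 := Real.add_one_le_exp (-(tj K j - τ))
  have h4 := Real.exp_pos (tj K j)
  rw [h2]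
  nlinarith

end Pool.Agent.W376.CIF
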