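import Pool.Agent.W376.CI.FinA

/-!
Project CI (helper646), extremal functions: estimates for the entire function.
-/

set_option autoImplicit false

namespace Pool.Agent.W376.CIF

open Filter Topology Pool.Agent.W646.CI

variable {K : ℕ} {f : ℂ → ℂ} {η : ℝ → ℝ}

theorem one_le_maxMod (hf : Differentiable ℂ f) (h0 : f 0 = 1) {r : ℝ} (hr : 0 ≤ r) :
    1 ≤ MinMod.maxMod f r := by
  have h1 := MinMod.L4a.le_maxMod f hf 0
  rw [h0, norm_one, norm_zero] at h1
  exact h1.trans (MinMod.L4a.maxMod_mono f hf 0 r le_rfl hr)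

theorem aF_mono (hf : Differentiable ℂ f) (h0 : f 0 = 1) {r s : ℝ} (hr : 0 ≤ r) (hrs : r ≤ s) :
    MinMod.aF f r ≤ MinMod.aF f s :=
  Real.log_le_log (lt_of_lt_of_le one_pos (one_le_maxMod hf h0 hr))
    (MinMod.L4a.maxMod_mono f hf r s hr hrs)

theorem aF_le (hf : Differentiable ℂ f) (h0 : f 0 = 1)
    (hb : ∀ z : ℂ, Real.exp 1 ≤ ‖z‖ → ‖f z‖ ≤ bd K η z) {τ : ℝ} (hτ : 1 ≤ τ) :
    MinMod.aF f (Real.exp τ) ≤ (1 + η τ) * Real.exp (τ ^ K) := by
  have hne : Nonempty (Metric.sphere (0 : ℂ) (Real.exp τ)) :=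
    ⟨⟨(Real.exp τ : ℂ), by
      rw [mem_sphere_zero_iff_norm, Complex.norm_real, Real.norm_of_nonneg (Real.exp_pos τ).le]⟩⟩
  have h1 : MinMod.maxMod f (Real.exp τ) ≤ Real.exp ((1 + η τ) * Real.exp (τ ^ K)) := by
    unfold MinMod.maxMod
    refine ciSup_le fun z => ?_
    have hz : ‖(z : ℂ)‖ = Real.exp τ := mem_sphere_zero_iff_norm.1 z.2
    have h2 := hb z (by
      rw [hz]
      exact Real.exp_le_exp.2 hτ)
    rw [bd, hz, Real.log_exp] at h2
    exact h2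
  have h2 := one_le_maxMod hf h0 (Real.exp_pos τ).le
  unfold MinMod.aF
  refine (Real.log_le_log (by linarith) h1).trans ?_
  rw [Real.log_exp]

theorem aF_ge (hf : Differentiable ℂ f) (h0 : f 0 = 1) {j m : ℕ}
    (hw : ∀ ρ > (0 : ℝ), ∀ B : ℝ, (∀ w : ℂ, ‖w - Complex.exp (sj K j)‖ = ρ → ‖f w‖ ≤ B) →
        ∀ z : ℂ, ‖z - Complex.exp (sj K j)‖ ≤ ρ →
          ‖f z‖ ≤ (‖z - Complex.exp (sj K j)‖ / ρ) ^ m * B) :
    (m : ℝ) ≤ MinMod.aF f (4 * Real.exp (tj K j)) := by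
  have he := Real.exp_pos (tj K j)
  have h1 := hw (3 * Real.exp (tj K j)) (by linarith) (MinMod.maxMod f (4 * Real.exp (tj K j)))
    (fun w hw' => by
      have h2 : ‖w‖ ≤ 4 * Real.exp (tj K j) := by
        have h3 := norm_le_norm_add_norm_sub' w (Complex.exp (sj K j))
        rw [norm_zeta, hw'] at h3
        linarith
      exact (MinMod.L4a.le_maxMod f hf w).trans (MinMod.L4a.maxMod_mono f hf _ _ (norm_nonneg w) h2))
    0 (by
      rw [zero_sub, norm_neg, norm_zeta]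
      linarith)
  rw [zero_sub, norm_neg, norm_zeta, h0, norm_one] at h1
  have h4 : Real.exp (tj K j) / (3 * Real.exp (tj K j)) = 1 / 3 := by
    field_simp
  rw [h4] at h1
  set B := MinMod.maxMod f (4 * Real.exp (tj K j)) with hB
  have h5 : (3 : ℝ) ^ m ≤ B := by
    have h6 : (3 : ℝ) ^ m * 1 ≤ (3 : ℝ) ^ m * ((1 / 3) ^ m * B) :=
      mul_le_mul_of_nonneg_left h1 (by positivity)
    rw [← mul_assoc, ← mul_pow] at h6
    norm_num at h6
    exact h6
  have h7 : Real.log ((3 : ℝ) ^ m) ≤ Real.log B := Real.log_le_log (by positivity) h5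
  rw [Real.log_pow] at h7
  have h8 : 1 ≤ Real.log 3 := by
    rw [Real.le_log_iff_exp_le (by norm_num)]
    have := Real.exp_one_lt_d9
    linarith
  have h9 : (m : ℝ) * 1 ≤ m * Real.log 3 := mul_le_mul_of_nonneg_left h8 (Nat.cast_nonneg m)
  unfold MinMod.aF
  linarith

/-- the estimate near the well -/
theorem main_est (hK : 3 ≤ K) {M : ℝ} (hη : ∀ τ, 0 ≤ η τ) (hM : ∀ τ, η τ ≤ M)
    (hb : ∀ z : ℂ, Real.exp 1 ≤ ‖z‖ → ‖f z‖ ≤ bd K η z) {τ : ℝ} (hτ : 4 ≤ τ)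
    (hτ2 : (K : ℝ) * 2 ^ (K - 1) ≤ τ) {j m : ℕ} (hj : j = ⌈τ ^ (2 * K - 2)⌉₊)
    (hw : ∀ ρ > (0 : ℝ), ∀ B : ℝ, (∀ w : ℂ, ‖w - Complex.exp (sj K j)‖ = ρ → ‖f w‖ ≤ B) →
        ∀ z : ℂ, ‖z - Complex.exp (sj K j)‖ ≤ ρ →
          ‖f z‖ ≤ (‖z - Complex.exp (sj K j)‖ / ρ) ^ m * B) :
    ∃ z : ℂ, ‖z‖ = Real.exp τ ∧ ‖f z‖ ≤ Real.exp (-(m * (((K : ℝ) - 2) * Real.log τ -
      Real.log (K * 2 ^ (K - 1)))) + (1 + M) * Real.exp 2 * ej K j) := by
  have hK' : (3 : ℝ) ≤ K := by exact_mod_cast hK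
  obtain ⟨h1, h2, h3⟩ := tj_ceil hK (by linarith : (1 : ℝ) ≤ τ) hj
  set t := tj K j with ht
  have ht1 : 1 ≤ t := by linarith
  have ht0 : 0 < t := by linarith
  have hlj : lj K j = K * t ^ (K - 1) := lj_eq hK j
  have hl3 : 3 ≤ lj K j := by
    rw [hlj]
    have : (1 : ℝ) ≤ t ^ (K - 1) := one_le_pow₀ ht1
    nlinarith
  have het := Real.exp_pos t
  -- the bound on the circle
  have hcirc : ∀ w : ℂ, ‖w - Complex.exp (sj K j)‖ = Real.exp t / lj K j →
      ‖f w‖ ≤ Real.exp ((1 + M) * Real.exp 2 * ej K j) := by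
    intro w hw'
    have h4 : Real.exp t / lj K j ≤ Real.exp t / 2 :=
      div_le_div_of_nonneg_left het.le (by norm_num) (by linarith)
    have h5 : Real.exp t / 2 ≤ ‖w‖ := by
      have h6 := norm_le_norm_add_norm_sub' (Complex.exp (sj K j)) w
      rw [norm_zeta, norm_sub_rev, hw'] at h6
      linarith
    have h6 : ‖w‖ ≤ Real.exp (t + 1 / lj K j) := by
      have h7 := norm_le_norm_add_norm_sub' w (Complex.exp (sj K j))
      rw [norm_zeta, hw'] at h7
      rw [Real.exp_add]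
      have h8 := Real.add_one_le_exp (1 / lj K j)
      have h9 : Real.exp t + Real.exp t / lj K j = Real.exp t * (1 / lj K j + 1) := by ring
      rw [← ht] at h7
      rw [h9] at h7
      exact h7.trans (mul_le_mul_of_nonneg_left h8 het.le)
    have h7 : Real.exp 1 ≤ ‖w‖ := by
      refine le_trans ?_ h5
      have h8 : Real.exp 4 ≤ Real.exp t := Real.exp_le_exp.2 (by linarith)
      have h9 : Real.exp 4 = Real.exp 1 * Real.exp 3 := by
        rw [← Real.exp_add]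
        norm_num
      have h10 := Real.add_one_le_exp (3 : ℝ)
      have h11 := Real.exp_pos 1
      nlinarith
    have hw0 : 0 < ‖w‖ := lt_of_lt_of_le (Real.exp_pos 1) h7
    have h8 : Real.log ‖w‖ ≤ t + 1 / lj K j := by
      rw [Real.log_le_iff_le_exp hw0]
      exact h6
    have h9 : 0 ≤ Real.log ‖w‖ := Real.log_nonneg (by
      have := Real.add_one_le_exp (1 : ℝ)
      linarith)
    have h10 : Real.log ‖w‖ ^ K ≤ t ^ K + 2 := by
      refine (pow_le_pow_left₀ h9 h8 K).trans ?_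
      rw [hlj]
      exact pow_up hK ht1
    refine (hb w h7).trans ?_
    unfold bd
    refine Real.exp_le_exp.2 ?_
    have h11 : Real.exp (Real.log ‖w‖ ^ K) ≤ Real.exp 2 * ej K j := by
      unfold ej
      rw [← Real.exp_add]
      refine Real.exp_le_exp.2 ?_
      rw [← ht]
      linarith
    rw [mul_assoc]
    exact mul_le_mul (by linarith [hM (Real.log ‖w‖)]) h11 (Real.exp_pos _).le
      (by linarith [hM 0, hη 0])
  -- the point
  have hpos : 0 < Real.exp t / lj K j := div_pos het (by linarith)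
  set C₁ : ℝ := K * 2 ^ (K - 1) with hC₁
  have hC₁0 : 0 < C₁ := by positivity
  have hτ0 : 0 < τ := by linarith
  have hq : (t - τ) * lj K j ≤ C₁ / τ ^ (K - 2) := by
    rw [le_div_iff₀ (pow_pos hτ0 _), hlj, hC₁]
    have h4 : t ^ (K - 1) ≤ 2 ^ (K - 1) * τ ^ (K - 1) := by
      rw [← mul_pow]
      exact pow_le_pow_left₀ ht0.le h3 _
    have h5 : τ ^ (2 * K - 3) = τ ^ (K - 1) * τ ^ (K - 2) := by
      rw [← pow_add]
      congr 1
      omega
    have h6 : 0 ≤ t - τ := by linarith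
    calc (t - τ) * (K * t ^ (K - 1)) * τ ^ (K - 2)
        ≤ (t - τ) * (K * (2 ^ (K - 1) * τ ^ (K - 1))) * τ ^ (K - 2) := by
          gcongr
      _ = K * 2 ^ (K - 1) * ((t - τ) * τ ^ (2 * K - 3)) := by
          rw [h5]
          ring
      _ ≤ K * 2 ^ (K - 1) * 1 := mul_le_mul_of_nonneg_left h2 (by positivity)
      _ = K * 2 ^ (K - 1) := mul_one _
  have hq1 : C₁ / τ ^ (K - 2) ≤ 1 := by
    rw [div_le_one (pow_pos hτ0 _)]
    refine hτ2.trans ?_
    have h4 : τ ^ 1 ≤ τ ^ (K - 2) := pow_le_pow_right₀ (by linarith) (by omega)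
    rwa [pow_one] at h4
  have hnd := norm_diff (K := K) (j := j) h1
  rw [← ht] at hnd
  have hz : ‖Complex.exp ⟨τ, 8 * Real.sqrt j⟩ - Complex.exp (sj K j)‖ / (Real.exp t / lj K j) ≤
      C₁ / τ ^ (K - 2) := by
    rw [div_le_iff₀ hpos]
    refine hnd.trans ?_
    have h4 : Real.exp t * (t - τ) = ((t - τ) * lj K j) * (Real.exp t / lj K j) := by
      field_simp
    rw [h4]
    exact mul_le_mul_of_nonneg_right hq hpos.le
  refine ⟨Complex.exp ⟨τ, 8 * Real.sqrt j⟩, Complex.norm_exp _, ?_⟩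
  have h5 := hw _ hpos _ hcirc (Complex.exp ⟨τ, 8 * Real.sqrt j⟩) (by
    rw [div_le_iff₀ hpos] at hz
    refine hz.trans ?_
    have h8 := mul_le_mul_of_nonneg_right hq1 hpos.le
    rwa [one_mul] at h8)
  refine h5.trans ?_
  rw [Real.exp_add]
  refine mul_le_mul_of_nonneg_right ?_ (Real.exp_pos _).le
  refine (pow_le_pow_left₀ (by positivity) hz m).trans ?_
  have h6 : C₁ / τ ^ (K - 2) = Real.exp (-(((K : ℝ) - 2) * Real.log τ - Real.log C₁)) := by
    rw [neg_sub, Real.exp_sub, Real.exp_log hC₁0]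
    congr 1
    have h7 : ((K : ℝ) - 2) = ((K - 2 : ℕ) : ℝ) := by
      rw [Nat.cast_sub (by omega)]
      norm_num
    rw [h7, ← Real.log_pow, Real.exp_log (pow_pos hτ0 _)]
  rw [h6, ← Real.exp_nat_mul, mul_neg]

end Pool.Agent.W376.CIF
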